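import Mathlib
import Pool.Agent.Helper51.SC.First

set_option autoImplicit false

/-!
# MP_941e3e_gt: Stäckel-compactness of the points of countable cofinality of a regular cardinal

`XX κ.ord.ToType` is the space of all ordinals `< κ` of countable cofinality (`0` and successors
included) with the topology inherited from the order topology, `CofOmega κ.ord.ToType` is the set
of the ordinals `< κ` of cofinality exactly `ω`, and `ContainsCopy A` says that `A` contains the
range of a normal function from `ω₁` to `κ` (a closed copy of `ω₁`).
-/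

namespace Pool.Agent.Results.MP_941e3e_gt.ClosedCopies

open Set Order Cardinal Filter Topology Pool.Agent.Helper51.SC

/-- For every regular uncountable cardinal `κ`, with `X` the space of the ordinals below `κ` of
countable cofinality and `S` the set of the ordinals below `κ` of cofinality `ω`:
(0) `X` is hereditarily normal, first countable, countably compact and scattered;
(1) if `X` is Stäckel-compact, then `S` contains two disjoint stationary sets, neither of which
contains a closed copy of `ω₁`;
(2) if `S` is the union of two sets, neither of which contains a closed copy of `ω₁`, then `X` is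
Stäckel-compact;
(3) hence, if every stationary subset of `S` contains a closed copy of `ω₁` (Friedman's property
`F(κ)`), then there is a countably compact Tychonoff space which is not Stäckel-compact. -/
theorem result (κ : Cardinal.{0}) (hκ : κ.IsRegular) (hκ' : ℵ₀ < κ) :
    (T5Space (XX κ.ord.ToType) ∧ FirstCountableTopology (XX κ.ord.ToType) ∧
      CountablyCompact (XX κ.ord.ToType) ∧
      ∀ s : Set (XX κ.ord.ToType), s.Nonempty → ∃ x ∈ s, ¬ AccPt x (𝓟 s)) ∧
    (StaeckelCompact (XX κ.ord.ToType) →
      ∃ A B : Set κ.ord.ToType, A ⊆ CofOmega κ.ord.ToType ∧ B ⊆ CofOmega κ.ord.ToType ∧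
        Disjoint A B ∧ IsStationary A ∧ IsStationary B ∧
        ¬ ContainsCopy A ∧ ¬ ContainsCopy B) ∧
    ((∃ A B : Set κ.ord.ToType, A ∪ B = CofOmega κ.ord.ToType ∧
        ¬ ContainsCopy A ∧ ¬ ContainsCopy B) →
      StaeckelCompact (XX κ.ord.ToType)) ∧
    ((∀ A ⊆ CofOmega κ.ord.ToType, IsStationary A → ContainsCopy A) →
      ∃ (X : Type) (_ : TopologicalSpace X), T35Space X ∧ CountablyCompact X ∧
        ¬ StaeckelCompact X) := by
  haveI := regularOrder κ hκ
  have hα : ℵ₀ < #κ.ord.ToType := by
    rwa [Cardinal.mk_toType, Cardinal.card_ord]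
  have hc := cof_gt hα
  haveI := t5 κ.ord.ToType
  refine ⟨⟨inferInstance, firstCountable _, countablyCompact hc, scattered⟩,
    stationary_pair hα, ?_, ?_⟩
  · rintro ⟨A, B, hAB, hA, hB⟩
    refine staeckel_of_partition hc A ?_ ?_
    · rintro ⟨f, hf, hfr⟩
      exact hA ⟨f, hf, fun x hx => (hfr hx).1⟩
    · rintro ⟨f, hf, hfr⟩
      refine hB ⟨f, hf, fun x hx => ?_⟩
      have h1 := hfr hx
      have h2 : x ∈ A ∪ B := by rw [hAB]; exact h1.1
      exact h2.resolve_left h1.2
  · intro hF
    refine ⟨XX κ.ord.ToType, inferInstance, inferInstance, countablyCompact hc, fun hS => ?_⟩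
    obtain ⟨A, -, hA, -, -, hst, -, hn, -⟩ := stationary_pair hα hS
    exact hn (hF A hA hst)

end Pool.Agent.Results.MP_941e3e_gt.ClosedCopies
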