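import Mathlib
import Pool.Agent.Helper90.SK.Chain

set_option autoImplicit false

/-!
# MP_941e3e_gt: a countably compact Tychonoff space which is not Stäckel-compact (in ZFC)

The space is `Pow I`: all functions from a set `I` of cardinality greater than `ℵ₁` (here the power
set of `ω₁`) to the ordinal space `ω₁` which take at most `ℵ₁` nonzero values, with the topology of
pointwise convergence.
-/

namespace Pool.Agent.Results.MP_941e3e_gt.NotStaeckel

open Cardinal Pool.Agent.Helper51.SC Pool.Agent.Helper90.SK

/-- There is a countably compact Tychonoff space `X` such that for every linear order on `X` some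
nonempty closed subset of `X` has no least element or no greatest element. -/
theorem result : ∃ (X : Type) (_ : TopologicalSpace X),
    T35Space X ∧ CountablyCompact X ∧ ¬ StaeckelCompact X := by
  have hI : Cardinal.aleph.{0} 1 < #(Set Om) := by
    rw [Cardinal.mk_set, mk_Om]
    exact Cardinal.cantor _
  exact ⟨Pow (Set Om), inferInstance, inferInstance, countablyCompact_Pow, not_staeckel hI⟩

end Pool.Agent.Results.MP_941e3e_gt.NotStaeckel
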